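import Mathlib
import Pool.Agent.Lib.MP_69200a_ag.Defs
import Pool.Agent.Lib.MP_69200a_ag.Example

/-!
The assertion of the question is false.  The model is the simply connected, simply transitive
homogeneous space of the group `ℂ ⋊ ℂ`, the manifold is the complex torus `ℂ²/ℤ[i]²`.
-/

open scoped Manifold ContDiff Topology

namespace Pool.Agent.Results.MP_69200a_ag.Disproof

open Pool.Agent.Lib.MP_69200a_ag

theorem result :
    ¬ ∀ (EG : Type) [NormedAddCommGroup EG] [NormedSpace ℂ EG] [FiniteDimensional ℂ EG]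
        (G : Type) [TopologicalSpace G] [T2Space G] [SecondCountableTopology G]
        [SimplyConnectedSpace G] [ChartedSpace EG G] [Group G] [LieGroup 𝓘(ℂ, EG) ω G]
        (EH : Type) [NormedAddCommGroup EH] [NormedSpace ℂ EH] [FiniteDimensional ℂ EH]
        (H : Type) [TopologicalSpace H] [ChartedSpace EH H] [Group H] [LieGroup 𝓘(ℂ, EH) ω H]
        (ι : H →* G)
        (EX : Type) [NormedAddCommGroup EX] [NormedSpace ℂ EX] [FiniteDimensional ℂ EX]
        (X : Type) [TopologicalSpace X] [T2Space X] [SimplyConnectedSpace X]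
        [ChartedSpace EX X] [IsManifold 𝓘(ℂ, EX) ω X] [MulAction G X] (x₀ : X)
        (EM : Type) [NormedAddCommGroup EM] [NormedSpace ℂ EM] [FiniteDimensional ℂ EM]
        (M : Type) [TopologicalSpace M] [T2Space M] [CompactSpace M] [ConnectedSpace M]
        [ChartedSpace EM M] [IsManifold 𝓘(ℂ, EM) ω M],
      IsClosedComplexSubgroup (EG := EG) (EH := EH) ι →
      IsHomogeneousSpace (EG := EG) (EX := EX) ι x₀ →
      ¬ HasCompactFactor EX X →
      Module.finrank ℂ EM = Module.finrank ℂ EX →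
      IsKahler EM M →
      CarriesCartanGeometry (EG := EG) (EH := EH) EM M ι →
      ∃ (G' : Subgroup G) (x : X) (Γ' : Subgroup G),
        IsClosed (G' : Set G) ∧ IsOpen {y : X | ∃ g ∈ G', g • x = y} ∧
        Γ' ≤ G' ∧ DiscreteTopology Γ' ∧ CompactSpace (G' ⧸ Γ'.subgroupOf G') := by
  intro hcon
  have : SimplyConnectedSpace Sol := inferInstanceAs (SimplyConnectedSpace (ℂ × ℂ))
  obtain ⟨G', x, Γ', h1, h2, _, h4, h5⟩ := hcon (ℂ × ℂ) Sol PUnit.{1} PUnit.{1} ι₀ (ℂ × ℂ) Sol
    (1 : Sol) (ℂ × ℂ) Torus ι₀_closed sol_homogeneous sol_no_compact_factor rfl Torus.isKahler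
    torus_geometry
  exact Sol.no_lattice G' Γ' (Sol.eq_top_of_open_orbit G' h1 x h2) h4 h5

end Pool.Agent.Results.MP_69200a_ag.Disproof
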