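import Mathlib
import Pool.Agent.Lib.MP_69200a_ag.Defs
import Pool.Agent.Lib.MP_69200a_ag.FlatDefs
import Pool.Agent.Lib.MP_69200a_ag.CE.Rational
import Pool.Agent.Lib.MP_69200a_ag.CE.Negative

/-!
The assertion of the question is false for flat geometries modelled on a compact simply connected
homogeneous space without rational curves.  The model is the Calabi-Eckmann manifold `S³ × S³`, the
quotient of `(ℂ² ∖ 0) × (ℂ² ∖ 0)` by the action `t · (u, v) = (e^t u, e^{it} v)` of `ℂ`, with the
group `GL₂(ℂ) × GL₂(ℂ)`; the manifold is the abelian threefold `E³`, `E = ℂ/(ℤ + ℤ√2 i)`, with its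
translation structure.
-/

open scoped Manifold ContDiff Topology

namespace Pool.Agent.Results.MP_69200a_ag.SimplyConnectedDisproof

open Pool.Agent.Lib.MP_69200a_ag Pool.Agent.Lib.MP_69200a_ag.CE

theorem result :
    ¬ ∀ (EG : Type) [NormedAddCommGroup EG] [NormedSpace ℂ EG] [FiniteDimensional ℂ EG]
        (G : Type) [TopologicalSpace G] [T2Space G] [SecondCountableTopology G]
        [ConnectedSpace G] [ChartedSpace EG G] [Group G] [LieGroup 𝓘(ℂ, EG) ω G]
        (EH : Type) [NormedAddCommGroup EH] [NormedSpace ℂ EH] [FiniteDimensional ℂ EH]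
        (H : Type) [TopologicalSpace H] [ChartedSpace EH H] [Group H] [LieGroup 𝓘(ℂ, EH) ω H]
        (ι : H →* G)
        (EX : Type) [NormedAddCommGroup EX] [NormedSpace ℂ EX] [FiniteDimensional ℂ EX]
        (X : Type) [TopologicalSpace X] [T2Space X] [CompactSpace X] [SimplyConnectedSpace X]
        [ChartedSpace EX X] [IsManifold 𝓘(ℂ, EX) ω X] [MulAction G X] (x₀ : X)
        (EM : Type) [NormedAddCommGroup EM] [NormedSpace ℂ EM] [FiniteDimensional ℂ EM]
        (M : Type) [TopologicalSpace M] [T2Space M] [CompactSpace M] [ConnectedSpace M]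
        [ChartedSpace EM M] [IsManifold 𝓘(ℂ, EM) ω M],
      IsClosedComplexSubgroup (EG := EG) (EH := EH) ι →
      IsHomogeneousSpace (EG := EG) (EX := EX) ι x₀ →
      ¬ HasRationalCurve EX X →
      Module.finrank ℂ EM = Module.finrank ℂ EX →
      IsKahler EM M →
      CarriesFlatCartanGeometry (EG := EG) (EH := EH) EM M ι →
      ∃ (G' : Subgroup G) (x : X) (Γ' : Subgroup G) (q : X → M),
        IsOpen {y : X | ∃ g ∈ G', g • x = y} ∧ Countable Γ' ∧
        IsQuotientMap' EM (EX := EX) Γ' {y : X | ∃ g ∈ G', g • x = y} q := by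
  intro hcon
  obtain ⟨G', x, Γ', q, h1, h2, h3⟩ := hcon Alg GG E5 HH iota (ℂ × ℂ × ℂ) CEX base C3 T3
    iota_closed homogeneous no_rational rfl T3.isKahler flat_geometry3
  exact not_quotient G' Γ' x q h1 h3

end Pool.Agent.Results.MP_69200a_ag.SimplyConnectedDisproof
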